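import Pool.Agent.Q162.FAL.Z

/-!
# Fully augmented links: FAL-J, the Kashaev invariant as a state sum
-/

set_option autoImplicit false

namespace Pool.Agent.Q162.FAL

open Matrix Finset
open Pool.Agent.W715.VC (rt)
open Pool.Agent.W709.QAT (Piece run)
open Pool.Agent.Q191.TW (cs cs_add cs_zero cs_period)
open Pool.Agent.Q191.TB (Gd)
open Pool.Agent.Q99.FAL

/-- the sum of the exponents -/
lemma ex_sum : ∀ (D : List Pc) (n : ℕ), Val D n →
    2 * ((D.map fun P => ex P.ty).sum : ℤ) = 2 * D.length + n - 1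
  | [], n, h => by
    have h1 : n = 1 := h
    subst h1
    simp
  | P :: D, n, h => by
    have ih := ex_sum D _ h.2
    have h1 := up_cn P.ty P.p n h.1
    rw [List.map_cons, List.sum_cons, List.length_cons]
    have h2 : (ex P.ty : ℤ) = cn P.ty := by
      cases P.ty <;> rfl
    push_cast
    push_cast at ih
    rw [h1] at ih
    rw [h2]
    linarith

/-- orthogonality -/
lemma orth (N : ℕ) (h : 0 < N) (x : ℕ) (hx : x < N) :
    ∑ s ∈ range N, cs N (-(2 * ((s : ℤ) : ℝ) * ((x : ℤ) : ℝ))) = if x = 0 then (N : ℂ) else 0 := by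
  have e1 : ∀ s : ℕ, cs N (-(2 * ((s : ℤ) : ℝ) * ((x : ℤ) : ℝ))) = cs N (-(2 * (x : ℝ))) ^ s := by
    intro s
    induction s with
    | zero => simp [cs_zero]
    | succ s ih =>
      rw [pow_succ, ← ih, ← cs_add]
      congr 1
      push_cast
      ring
  simp only [e1]
  split_ifs with h0
  · subst h0
    simp [cs_zero]
  · have hne : cs N (-(2 * (x : ℝ))) ≠ 1 := by
      intro h1
      unfold cs at h1
      rw [Complex.exp_eq_one_iff] at h1
      obtain ⟨k, hk⟩ := h1
      have hN : (N : ℂ) ≠ 0 := by exact_mod_cast h.ne'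
      have hpi : (Real.pi : ℂ) ≠ 0 := by exact_mod_cast Real.pi_ne_zero
      have h2 : -(x : ℂ) = k * N := by
        have h3 : ((Real.pi * -(2 * (x : ℝ)) / N : ℝ) : ℂ) * Complex.I = k * (2 * Real.pi * Complex.I) := hk
        push_cast at h3
        have h4 : (2 * Real.pi * Complex.I) * (-(x : ℂ)) = (2 * Real.pi * Complex.I) * (k * N) := by
          field_simp at h3
          linear_combination (2 * (Real.pi : ℂ) * Complex.I) * h3
        exact mul_left_cancel₀ (by simp [hpi]) h4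
      have h5 : -(x : ℤ) = k * N := by exact_mod_cast h2
      have h6 : (N : ℤ) ∣ x := ⟨-k, by linarith⟩
      have h7 := Int.le_of_dvd (by omega) h6
      omega
    rw [geom_sum_eq hne]
    have h3 : cs N (-(2 * (x : ℝ))) ^ N = 1 := by
      rw [← e1 N]
      have h4 := cs_period h 0 (-(x : ℤ))
      rw [cs_zero] at h4
      rw [← h4]
      congr 1
      push_cast
      ring
    rw [h3, sub_self, zero_div]

theorem task_J : S_J := by
  intro hG hTR hZ N h D hD
  obtain ⟨θ, hθ1, hθ⟩ := hG hTR hZ N h D 1 hD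
  refine ⟨θ, hθ1, ?_⟩
  have hGd := Gd_D (N := N) D 1 hD
  have hN : (N : ℂ) ≠ 0 := by exact_mod_cast h.ne'
  have hrt : rt N ≠ 0 := Complex.exp_ne_zero _
  have hnu : ∀ s : ℤ, nu N (-s) * nu N s = 1 := by
    intro s
    unfold nu
    rw [← zpow_add₀ (by simp [hrt]), neg_add_cancel, zpow_zero]
  have e1 := hGd.loc (fun l => if l = [⟨0, h⟩] then (1 : ℂ) else 0)
    (fun l => (N : ℂ)⁻¹ * ∑ s ∈ range N, nu N (-(s : ℤ)) * UU N (str (s : ℤ) [0, 0]) l) [⟨0, h⟩] rfl ?_
  · rw [e1, hGd.smul _ _ _ rfl, hGd.sum _ _ _ rfl]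
    have e2 : ∀ s ∈ range N, run N (rt N) (D.flatMap els)
        (fun l => nu N (-(s : ℤ)) * UU N (str (s : ℤ) [0, 0]) l) [⟨0, h⟩] =
        θ * N ^ (D.map fun P => ex P.ty).sum * SD N D [0, 0] := by
      intro s _
      rw [hGd.smul _ _ _ rfl, hθ (s : ℤ) [0, 0] rfl (by simp) rfl rfl (by simp)]
      have := hnu (s : ℤ)
      linear_combination (θ * N ^ (D.map fun P => ex P.ty).sum * SD N D [0, 0]) * this
    rw [Finset.sum_congr rfl e2, Finset.sum_const, Finset.card_range, nsmul_eq_mul]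
    have e3 : (D.map fun P => ex P.ty).sum = D.length := by
      have h8 := ex_sum D 1 hD
      omega
    rw [e3]
    field_simp
  · intro l hl _
    obtain ⟨x, rfl⟩ := List.length_eq_one_iff.1 hl
    have e4 : ∀ s : ℕ, nu N (-(s : ℤ)) * UU N (str (s : ℤ) [0, 0]) [x] = ph N 0 (s : ℤ) (x : ℕ) := by
      intro s
      have h5 : str (s : ℤ) [0, 0] = [(s : ℤ)] := by simp [str]
      rw [h5]
      unfold UU
      simp only [List.sum_cons, List.sum_nil, add_zero, uu, mul_one]
      rw [← mul_assoc, hnu, one_mul]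
    simp only [e4]
    have e5 : ∀ s : ℕ, ph N 0 (s : ℤ) ((x : ℕ) : ℤ) = cs N (-((((x : ℕ) : ℤ) : ℝ) ^ 2 / 2)) *
        cs N (-(2 * ((s : ℤ) : ℝ) * (((x : ℕ) : ℤ) : ℝ))) := by
      intro s
      rw [← cs_add]
      unfold ph
      congr 1
      push_cast
      ring
    simp only [e5]
    rw [← Finset.mul_sum, orth N h x x.2]
    by_cases hx : (x : ℕ) = 0
    · have hx' : x = ⟨0, h⟩ := Fin.ext hx
      rw [if_pos hx, hx', if_pos rfl]
      simp [cs_zero, hN]
    · have hx' : x ≠ ⟨0, h⟩ := fun h' => hx (by rw [h'])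
      rw [if_neg hx, mul_zero, mul_zero, if_neg]
      intro h'
      exact hx' (by simpa using h')

end Pool.Agent.Q162.FAL
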