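import Pool.Agent.Q99.FAL.Stm2

/-!
# Fully augmented links: FAL-Z, too small angle sums give zero
-/

set_option autoImplicit false

namespace Pool.Agent.Q162.FAL

open Matrix Finset
open Pool.Agent.W715.VC (rt)
open Pool.Agent.W709.QAT (Piece run)
open Pool.Agent.Q191.TW (cs)
open Pool.Agent.Q191.LB (sg)
open Pool.Agent.Q191.SH (aw)
open Pool.Agent.Q191.TB (Gd Gd_cup Gd_cap Gd_twist Gd_id run_app)
open Pool.Agent.Q99.FW (Gd_app)
open Pool.Agent.Q99.FAL

theorem Gd_aw {N : ℕ} (i n : ℕ) (h : i + 2 ≤ n) (σ : Bool) (m : ℕ) :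
    Gd (N := N) n n (run N (rt N) (aw i σ m 1)) := by
  have e : aw i σ m 1 = [Piece.cup (i + 2)] ++ ([Piece.twist (i + 1) true 1] ++ ([Piece.twist i true 1] ++
      ([Piece.twist i true 1] ++ ([Piece.twist (i + 1) true 1] ++ ([Piece.cap (i + 2)] ++
        [Piece.twist i σ m]))))) := rfl
  rw [e]
  refine Gd_app (p' := n + 2) (Gd_cup (i + 2) n (by omega)) ?_
  refine Gd_app (Gd_twist (by omega) 1 true) ?_
  refine Gd_app (Gd_twist (by omega) 1 true) ?_
  refine Gd_app (Gd_twist (by omega) 1 true) ?_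
  refine Gd_app (Gd_twist (by omega) 1 true) ?_
  exact Gd_app (Gd_cap (i + 2) n (by omega)) (Gd_twist (by omega) m σ)

theorem Gd_els {N : ℕ} (P : Pc) (n : ℕ) (h : P.p + wd P.ty ≤ n) :
    Gd (N := N) (up P.ty n) n (run N (rt N) (els P)) := by
  obtain ⟨T, p, σ, m⟩ := P
  cases T
  · exact Gd_aw p n h σ m
  · change p + 2 ≤ n at h
    have e : els ⟨.H, p, σ, m⟩ = [Piece.cup (p + 2)] ++ (aw (p + 1) σ m 1 ++ [Piece.cap p]) := rfl
    rw [e]
    exact Gd_app (p' := n + 2) (Gd_cup (p + 2) n (by omega)) (Gd_app (Gd_aw (p + 1) (n + 2) (by omega) σ m)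
      (Gd_cap p n (by omega)))
  · change p + 1 ≤ n at h
    have e : els ⟨.YL, p, σ, m⟩ = [Piece.cup (p + 1)] ++ aw p σ m 1 := rfl
    rw [e]
    exact Gd_app (p' := n + 2) (Gd_cup (p + 1) n (by omega)) (Gd_aw p (n + 2) (by omega) σ m)
  · change p + 1 ≤ n at h
    have e : els ⟨.YR, p, σ, m⟩ = [Piece.cup p] ++ aw (p + 1) σ m 1 := rfl
    rw [e]
    exact Gd_app (p' := n + 2) (Gd_cup p n (by omega)) (Gd_aw (p + 1) (n + 2) (by omega) σ m)
  · change p + 3 ≤ n at h
    obtain ⟨k, rfl⟩ : ∃ k, n = k + 2 := ⟨n - 2, by omega⟩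
    have e : els ⟨.LL, p, σ, m⟩ = aw p σ m 1 ++ [Piece.cap (p + 1)] := rfl
    rw [e]
    exact Gd_app (Gd_aw p (k + 2) (by omega) σ m) (Gd_cap (p + 1) k (by omega))
  · change p + 3 ≤ n at h
    obtain ⟨k, rfl⟩ : ∃ k, n = k + 2 := ⟨n - 2, by omega⟩
    have e : els ⟨.LR, p, σ, m⟩ = aw (p + 1) σ m 1 ++ [Piece.cap p] := rfl
    rw [e]
    exact Gd_app (Gd_aw (p + 1) (k + 2) (by omega) σ m) (Gd_cap p k (by omega))

theorem Gd_D {N : ℕ} : ∀ (D : List Pc) (n : ℕ), Val D n → Gd (N := N) 1 n (run N (rt N) (D.flatMap els))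
  | [], n, h => by
    have h1 : n = 1 := h
    subst h1
    exact Gd_id 1
  | P :: D, n, h => by
    rw [List.flatMap_cons]
    exact Gd_app (Gd_els P n h.1) (Gd_D D _ h.2)

/-- the number of closed regions -/
def cn : Ty → ℕ
  | .V => 1
  | .H => 1
  | .YL => 0
  | .YR => 0
  | .LL => 2
  | .LR => 2

lemma split3 {R : Type} {G : List R} {p n : ℕ} (hG : G.length = n + 1) (h : p + 2 ≤ n) :
    ∃ (A : List R) (x g y : R) (r : List R), G = A ++ x :: g :: y :: r ∧ A.length = p := by
  obtain ⟨x, g, y, r, hr⟩ : ∃ (x g y : R) (r : List R), G.drop p = x :: g :: y :: r := by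
    have hl : (G.drop p).length = n + 1 - p := by rw [List.length_drop, hG]
    rcases hd : G.drop p with _ | ⟨x, _ | ⟨g, _ | ⟨y, r⟩⟩⟩
    · rw [hd] at hl; simp at hl; omega
    · rw [hd] at hl; simp at hl; omega
    · rw [hd] at hl; simp at hl; omega
    · exact ⟨x, g, y, r, rfl⟩
  refine ⟨G.take p, x, g, y, r, ?_, ?_⟩
  · rw [← hr, List.take_append_drop]
  · rw [List.length_take]; omega

lemma split2 {R : Type} {G : List R} {p n : ℕ} (hG : G.length = n + 1) (h : p + 1 ≤ n) :
    ∃ (A : List R) (x y : R) (r : List R), G = A ++ x :: y :: r ∧ A.length = p := by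
  obtain ⟨x, g, r, hr⟩ : ∃ (x g : R) (r : List R), G.drop p = x :: g :: r := by
    have hl : (G.drop p).length = n + 1 - p := by rw [List.length_drop, hG]
    rcases hd : G.drop p with _ | ⟨x, _ | ⟨g, r⟩⟩
    · rw [hd] at hl; simp at hl; omega
    · rw [hd] at hl; simp at hl; omega
    · exact ⟨x, g, r, rfl⟩
  refine ⟨G.take p, x, g, r, ?_, ?_⟩
  · rw [← hr, List.take_append_drop]
  · rw [List.length_take]; omega

lemma split4 {R : Type} {G : List R} {p n : ℕ} (hG : G.length = n + 1) (h : p + 3 ≤ n) :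
    ∃ (A : List R) (x g k y : R) (r : List R), G = A ++ x :: g :: k :: y :: r ∧ A.length = p := by
  obtain ⟨x, g, k, y, r, hr⟩ : ∃ (x g k y : R) (r : List R), G.drop p = x :: g :: k :: y :: r := by
    have hl : (G.drop p).length = n + 1 - p := by rw [List.length_drop, hG]
    rcases hd : G.drop p with _ | ⟨x, _ | ⟨g, _ | ⟨k, _ | ⟨y, r⟩⟩⟩⟩
    · rw [hd] at hl; simp at hl; omega
    · rw [hd] at hl; simp at hl; omega
    · rw [hd] at hl; simp at hl; omega
    · rw [hd] at hl; simp at hl; omega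
    · exact ⟨x, g, k, y, r, rfl⟩
  refine ⟨G.take p, x, g, k, y, r, ?_, ?_⟩
  · rw [← hr, List.take_append_drop]
  · rw [List.length_take]; omega

/-- the bookkeeping of a step -/
lemma step (T : Ty) (p n : ℕ) (q : Fin 4 → ℤ) (G : List ℤ) (h : p + wd T ≤ n) (hG : G.length = n + 1)
    (hG0 : ∀ g ∈ G, 0 ≤ g) (hq : ∀ i, 0 ≤ q i) :
    (stp T p q G).length = up T n + 1 ∧ (∀ g ∈ stp T p q G, 0 ≤ g) ∧
    (cls T p q G).length = cn T ∧ (∀ g ∈ cls T p q G, 0 ≤ g) ∧
    (stp T p q G).sum + (cls T p q G).sum = G.sum + (q 0 + q 1 + q 2 + q 3) := by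
  have q0 := hq 0
  have q1 := hq 1
  have q2 := hq 2
  have q3 := hq 3
  cases T
  · change p + 2 ≤ n at h
    obtain ⟨A, x, g, y, r, rfl, rfl⟩ := split3 hG h
    simp only [List.mem_append, List.mem_cons] at hG0
    have hx := hG0 x (by simp)
    have hg := hG0 g (by simp)
    have hy := hG0 y (by simp)
    have e1 : stp Ty.V A.length q (A ++ x :: g :: y :: r) = A ++ (x + q 3) :: q 2 :: (y + q 1) :: r := by
      simp [stp]
    have e2 : cls Ty.V A.length q (A ++ x :: g :: y :: r) = [g + q 0] := by simp [cls]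
    rw [e1, e2]
    simp only [List.length_append, List.length_cons] at hG
    refine ⟨by simp [up]; omega, fun z hz => ?_, rfl, fun z hz => ?_, ?_⟩
    · simp only [List.mem_append, List.mem_cons] at hz
      rcases hz with hz | hz | hz | hz | hz
      · exact hG0 z (Or.inl hz)
      · omega
      · omega
      · omega
      · exact hG0 z (Or.inr (Or.inr (Or.inr (Or.inr hz))))
    · simp only [List.mem_singleton] at hz
      omega
    · simp only [List.sum_append, List.sum_cons, List.sum_nil]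
      ring
  · change p + 2 ≤ n at h
    obtain ⟨A, x, g, y, r, rfl, rfl⟩ := split3 hG h
    simp only [List.mem_append, List.mem_cons] at hG0
    have hx := hG0 x (by simp)
    have hg := hG0 g (by simp)
    have hy := hG0 y (by simp)
    have e1 : stp Ty.H A.length q (A ++ x :: g :: y :: r) = A ++ (x + q 2) :: q 1 :: (y + q 0) :: r := by
      simp [stp]
    have e2 : cls Ty.H A.length q (A ++ x :: g :: y :: r) = [g + q 3] := by simp [cls]
    rw [e1, e2]
    simp only [List.length_append, List.length_cons] at hG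
    refine ⟨by simp [up]; omega, fun z hz => ?_, rfl, fun z hz => ?_, ?_⟩
    · simp only [List.mem_append, List.mem_cons] at hz
      rcases hz with hz | hz | hz | hz | hz
      · exact hG0 z (Or.inl hz)
      · omega
      · omega
      · omega
      · exact hG0 z (Or.inr (Or.inr (Or.inr (Or.inr hz))))
    · simp only [List.mem_singleton] at hz
      omega
    · simp only [List.sum_append, List.sum_cons, List.sum_nil]
      ring
  · change p + 1 ≤ n at h
    obtain ⟨A, x, y, r, rfl, rfl⟩ := split2 hG h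
    simp only [List.mem_append, List.mem_cons] at hG0
    have hx := hG0 x (by simp)
    have hy := hG0 y (by simp)
    have e1 : stp Ty.YL A.length q (A ++ x :: y :: r) = A ++ (x + q 3) :: q 2 :: q 1 :: (y + q 0) :: r := by
      simp [stp]
    have e2 : cls Ty.YL A.length q (A ++ x :: y :: r) = [] := by simp [cls]
    rw [e1, e2]
    simp only [List.length_append, List.length_cons] at hG
    refine ⟨by simp [up]; omega, fun z hz => ?_, rfl, fun z hz => ?_, ?_⟩
    · simp only [List.mem_append, List.mem_cons] at hz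
      rcases hz with hz | hz | hz | hz | hz | hz
      · exact hG0 z (Or.inl hz)
      · omega
      · omega
      · omega
      · omega
      · exact hG0 z (Or.inr (Or.inr (Or.inr hz)))
    · simp at hz
    · simp only [List.sum_append, List.sum_cons, List.sum_nil]
      ring
  · change p + 1 ≤ n at h
    obtain ⟨A, x, y, r, rfl, rfl⟩ := split2 hG h
    simp only [List.mem_append, List.mem_cons] at hG0
    have hx := hG0 x (by simp)
    have hy := hG0 y (by simp)
    have e1 : stp Ty.YR A.length q (A ++ x :: y :: r) = A ++ (x + q 0) :: q 3 :: q 2 :: (y + q 1) :: r := by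
      simp [stp]
    have e2 : cls Ty.YR A.length q (A ++ x :: y :: r) = [] := by simp [cls]
    rw [e1, e2]
    simp only [List.length_append, List.length_cons] at hG
    refine ⟨by simp [up]; omega, fun z hz => ?_, rfl, fun z hz => ?_, ?_⟩
    · simp only [List.mem_append, List.mem_cons] at hz
      rcases hz with hz | hz | hz | hz | hz | hz
      · exact hG0 z (Or.inl hz)
      · omega
      · omega
      · omega
      · omega
      · exact hG0 z (Or.inr (Or.inr (Or.inr hz)))
    · simp at hz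
    · simp only [List.sum_append, List.sum_cons, List.sum_nil]
      ring
  · change p + 3 ≤ n at h
    obtain ⟨A, x, g, k, y, r, rfl, rfl⟩ := split4 hG h
    simp only [List.mem_append, List.mem_cons] at hG0
    have hx := hG0 x (by simp)
    have hg := hG0 g (by simp)
    have hk := hG0 k (by simp)
    have hy := hG0 y (by simp)
    have e1 : stp Ty.LL A.length q (A ++ x :: g :: k :: y :: r) = A ++ (x + q 3) :: (y + q 2) :: r := by
      simp [stp]
    have e2 : cls Ty.LL A.length q (A ++ x :: g :: k :: y :: r) = [g + q 0, k + q 1] := by simp [cls]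
    rw [e1, e2]
    simp only [List.length_append, List.length_cons] at hG
    refine ⟨by simp [up]; omega, fun z hz => ?_, rfl, fun z hz => ?_, ?_⟩
    · simp only [List.mem_append, List.mem_cons] at hz
      rcases hz with hz | hz | hz | hz
      · exact hG0 z (Or.inl hz)
      · omega
      · omega
      · exact hG0 z (Or.inr (Or.inr (Or.inr (Or.inr (Or.inr hz)))))
    · simp only [List.mem_cons, List.not_mem_nil, or_false] at hz
      omega
    · simp only [List.sum_append, List.sum_cons, List.sum_nil]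
      ring
  · change p + 3 ≤ n at h
    obtain ⟨A, x, g, k, y, r, rfl, rfl⟩ := split4 hG h
    simp only [List.mem_append, List.mem_cons] at hG0
    have hx := hG0 x (by simp)
    have hg := hG0 g (by simp)
    have hk := hG0 k (by simp)
    have hy := hG0 y (by simp)
    have e1 : stp Ty.LR A.length q (A ++ x :: g :: k :: y :: r) = A ++ (x + q 2) :: (y + q 1) :: r := by
      simp [stp]
    have e2 : cls Ty.LR A.length q (A ++ x :: g :: k :: y :: r) = [g + q 3, k + q 0] := by simp [cls]
    rw [e1, e2]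
    simp only [List.length_append, List.length_cons] at hG
    refine ⟨by simp [up]; omega, fun z hz => ?_, rfl, fun z hz => ?_, ?_⟩
    · simp only [List.mem_append, List.mem_cons] at hz
      rcases hz with hz | hz | hz | hz
      · exact hG0 z (Or.inl hz)
      · omega
      · omega
      · exact hG0 z (Or.inr (Or.inr (Or.inr (Or.inr (Or.inr hz)))))
    · simp only [List.mem_cons, List.not_mem_nil, or_false] at hz
      omega
    · simp only [List.sum_append, List.sum_cons, List.sum_nil]
      ring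

lemma up_cn (T : Ty) (p n : ℕ) (h : p + wd T ≤ n) : (up T n : ℤ) = n + 2 - 2 * cn T := by
  cases T
  · simp [up, cn]
  · simp [up, cn]
  · simp [up, cn]
  · simp [up, cn]
  · change p + 3 ≤ n at h
    simp only [up, cn]
    omega
  · change p + 3 ≤ n at h
    simp only [up, cn]
    omega

/-- closed regions have at least the sum `N - 1` -/
lemma cls_ge {N : ℕ} (l : List ℤ) (h0 : ∀ c ∈ l, 0 ≤ c) (h1 : ∀ c ∈ l, (N : ℤ) ∣ c + 1) :
    (l.length : ℤ) * (N - 1) ≤ l.sum := by
  induction l with
  | nil => simp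
  | cons c l ih =>
    have i1 := ih (fun c hc => h0 c (List.mem_cons_of_mem _ hc)) fun c hc => h1 c (List.mem_cons_of_mem _ hc)
    have c0 := h0 c List.mem_cons_self
    have c1 := Int.le_of_dvd (by omega) (h1 c List.mem_cons_self)
    rw [List.sum_cons, List.length_cons]
    push_cast
    nlinarith

lemma cor_sum {N : ℕ} (x : Fin 6 → Fin N) :
    cor (zz x) 0 + cor (zz x) 1 + cor (zz x) 2 + cor (zz x) 3 = n1 (zz x) + n2 (zz x) := by
  simp only [cor, n1, n2, Matrix.cons_val_zero, Matrix.cons_val_one, Matrix.cons_val]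
  ring

lemma cor_nonneg {N : ℕ} (x : Fin 6 → Fin N) (i : Fin 4) : 0 ≤ cor (zz x) i := by
  have h : ∀ t, 0 ≤ zz x t := fun t => by unfold zz; positivity
  fin_cases i
  · exact h 0
  · exact add_nonneg (h 1) (h 4)
  · exact h 3
  · exact add_nonneg (h 2) (h 5)

/-- the value of `2 ΣG - (n - 1) (N - 1)` does not grow -/
lemma step_le {N : ℕ} (T : Ty) (p n : ℕ) (x : Fin 6 → Fin N) (G : List ℤ) (h : p + wd T ≤ n)
    (hG : G.length = n + 1) (hG0 : ∀ g ∈ G, 0 ≤ g) (hx : n1 (zz x) + n2 (zz x) = N - 1)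
    (hc : ∀ c ∈ cls T p (cor (zz x)) G, (N : ℤ) ∣ c + 1) :
    2 * (stp T p (cor (zz x)) G).sum - ((up T n : ℤ) - 1) * (N - 1) ≤ 2 * G.sum - ((n : ℤ) - 1) * (N - 1) := by
  obtain ⟨s1, s2, s3, s4, s5⟩ := step T p n (cor (zz x)) G h hG hG0 (cor_nonneg x)
  have h1 := cls_ge _ s4 hc
  rw [s3] at h1
  rw [cor_sum, hx] at s5
  rw [up_cn T p n h]
  nlinarith

theorem task_Z : S_Z := by
  intro hTR N h D
  induction D with
  | nil =>
    intro n hV s G hG hG0 hlt
    have h1 : n = 1 := hV
    subst h1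
    exfalso
    have h2 : 0 ≤ G.sum := List.sum_nonneg hG0
    simp at hlt
    omega
  | cons P D ih =>
    intro n hV s G hG hG0 hlt
    obtain ⟨hp, hV'⟩ := hV
    obtain ⟨θ, -, hθ⟩ := hTR P.ty N h P.p n P.σ P.m hp
    obtain ⟨ε, -, hε⟩ := hθ s G hG hG0
    have hGd := Gd_D (N := N) D _ hV'
    rw [List.flatMap_cons, run_app]
    have e1 := hGd.loc (run N (rt N) (els P) (UU N (str s G)))
      (fun l => θ * N ^ ex P.ty * ∑ x : Fin 6 → Fin N, if n1 (zz x) + n2 (zz x) = N - 1 ∧
        (∀ c ∈ cls P.ty P.p (cor (zz x)) G, (N : ℤ) ∣ c + 1) then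
          wt6 N (sg P.σ * P.m) (zz x) * ε x * UU N (str s (stp P.ty P.p (cor (zz x)) G)) l else 0)
      [⟨0, h⟩] rfl (fun l' hl' _ => hε l' hl')
    rw [e1, hGd.smul (θ * N ^ ex P.ty) _ _ rfl, hGd.sum _ _ _ rfl]
    rw [Finset.sum_eq_zero, mul_zero]
    intro x _
    by_cases hx : n1 (zz x) + n2 (zz x) = N - 1 ∧ (∀ c ∈ cls P.ty P.p (cor (zz x)) G, (N : ℤ) ∣ c + 1)
    · simp only [if_pos hx]
      rw [hGd.smul _ _ _ rfl]
      obtain ⟨s1, s2, s3, s4, s5⟩ := step P.ty P.p n (cor (zz x)) G hp hG hG0 (cor_nonneg x)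
      have h3 := step_le P.ty P.p n x G hp hG hG0 hx.1 hx.2
      rw [ih _ hV' s _ s1 s2 (by linarith), mul_zero]
    · simp only [if_neg hx]
      exact hGd.zero _ rfl

end Pool.Agent.Q162.FAL
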